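import Pool.Agent.H74R2.WT.Stmts

/-! Task C: the `φ`-integral is well defined. -/

set_option autoImplicit false

open MeasureTheory Set Filter Topology

namespace H74R2.WT

noncomputable section

/-- primitive of the `φ`-integral of the piece `p`, at `h` -/
def cPsi {K : Subfield ℝ} (σ : K →+* ℝ) (φ : ℝ →+ ℝ) (p : Piece K) (h : ℝ) : ℝ :=
  φ h * φ p.c + 1 / 2 * σ p.k * (φ h) ^ 2

theorem cPsi_J {K : Subfield ℝ} (σ : K →+* ℝ) (φ : ℝ →+ ℝ) (p : Piece K) :
    p.J σ φ = cPsi σ φ p p.b - cPsi σ φ p p.a := by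
  unfold Piece.J cPsi
  ring

theorem c_key {K : Subfield ℝ} (σ : K →+* ℝ) (φ : ℝ →+ ℝ) {ι : Type} [Fintype ι] (w : ι → ℤ)
    (p : ι → Piece K) (hae : ∀ᵐ s : ℝ, ∑ i, (w i : ℝ) * (p i).f s = 0) (I : ι → Prop) [DecidablePred I]
    (l u : ℝ) (hlu : l < u)
    (hI : ∀ s ∈ Ioo l u, ∀ i, (p i).f s = if I i then (p i).c + ((p i).k : ℝ) * s else 0)
    (h : ℝ) : ∑ i, (if I i then (w i : ℝ) * cPsi σ φ (p i) h else 0) = 0 := by
  have hd : Dense {s : ℝ | ∑ i, (w i : ℝ) * (p i).f s = 0} := Measure.dense_of_ae hae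
  set C : ℝ := ∑ i, (if I i then (w i : ℝ) * (p i).c else 0) with hC
  set D : K := ∑ i, (if I i then (w i : K) * (p i).k else 0) with hD
  have hDr : (D : ℝ) = ∑ i, (if I i then (w i : ℝ) * ((p i).k : ℝ) else 0) := by
    rw [hD]
    push_cast
    refine Finset.sum_congr rfl fun i _ => ?_
    split_ifs <;> simp
  have hsum : ∀ s ∈ Ioo l u, ∑ i, (w i : ℝ) * (p i).f s = C + (D : ℝ) * s := by
    intro s hs
    rw [hDr, hC, Finset.sum_mul, ← Finset.sum_add_distrib]
    refine Finset.sum_congr rfl fun i _ => ?_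
    rw [hI s hs i]
    split_ifs <;> ring
  obtain ⟨s1, hs1, hs1a, hs1b⟩ := hd.exists_between (show l < (l + u) / 2 by linarith)
  obtain ⟨s2, hs2, hs2a, hs2b⟩ := hd.exists_between (show (l + u) / 2 < u by linarith)
  have e1 : C + (D : ℝ) * s1 = 0 := by
    rw [← hsum s1 ⟨hs1a, by linarith⟩]
    exact hs1
  have e2 : C + (D : ℝ) * s2 = 0 := by
    rw [← hsum s2 ⟨by linarith, hs2b⟩]
    exact hs2
  have hD0 : (D : ℝ) = 0 := by
    have h1 : (D : ℝ) * (s2 - s1) = 0 := by linarith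
    rcases mul_eq_zero.1 h1 with h2 | h2
    · exact h2
    · exfalso
      linarith
  have hC0 : C = 0 := by
    rw [hD0] at e1
    linarith
  have hD0' : D = 0 := by
    apply Subtype.ext
    exact hD0
  have h1 : ∑ i, (if I i then (w i : ℝ) * cPsi σ φ (p i) h else 0) =
      φ h * φ C + 1 / 2 * σ D * (φ h) ^ 2 := by
    rw [hC, hD, map_sum, map_sum, Finset.mul_sum, Finset.mul_sum, Finset.sum_mul,
      ← Finset.sum_add_distrib]
    refine Finset.sum_congr rfl fun i _ => ?_
    split_ifs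
    · have e3 : φ ((w i : ℝ) * (p i).c) = (w i : ℝ) * φ (p i).c := by
        rw [← zsmul_eq_mul, map_zsmul, zsmul_eq_mul]
      have e4 : σ ((w i : K) * (p i).k) = (w i : ℝ) * σ (p i).k := by
        rw [map_mul, map_intCast]
      rw [e3, e4]
      unfold cPsi
      ring
    · simp
  rw [h1, hC0, hD0', map_zero, map_zero]
  ring

open Classical in
theorem c_left {K : Subfield ℝ} (q : Piece K) (h : ℝ) :
    ∀ᶠ s in 𝓝[<] h, q.f s = if q.a < h ∧ h ≤ q.b then q.c + (q.k : ℝ) * s else 0 := by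
  by_cases h1 : q.a < h
  · by_cases h2 : h ≤ q.b
    · filter_upwards [eventually_nhdsWithin_of_eventually_nhds (lt_mem_nhds h1),
        self_mem_nhdsWithin] with s hs hs'
      have hs'' : s < h := hs'
      unfold Piece.f
      rw [if_pos ⟨hs, by linarith⟩, if_pos ⟨h1, h2⟩]
    · push Not at h2
      filter_upwards [eventually_nhdsWithin_of_eventually_nhds (lt_mem_nhds h2)] with s hs
      unfold Piece.f
      rw [if_neg (fun hc => absurd hc.2 (not_lt.2 hs.le)),
        if_neg (fun hc => absurd hc.2 (not_le.2 h2))]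
  · filter_upwards [self_mem_nhdsWithin] with s hs
    have hs' : s < h := hs
    unfold Piece.f
    rw [if_neg (fun hc => h1 (by linarith [hc.1])), if_neg (fun hc => h1 hc.1)]

open Classical in
theorem c_right {K : Subfield ℝ} (q : Piece K) (h : ℝ) :
    ∀ᶠ s in 𝓝[>] h, q.f s = if q.a ≤ h ∧ h < q.b then q.c + (q.k : ℝ) * s else 0 := by
  by_cases h1 : h < q.b
  · by_cases h2 : q.a ≤ h
    · filter_upwards [eventually_nhdsWithin_of_eventually_nhds (gt_mem_nhds h1),
        self_mem_nhdsWithin] with s hs hs'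
      have hs'' : h < s := hs'
      unfold Piece.f
      rw [if_pos ⟨by linarith, hs⟩, if_pos ⟨h2, h1⟩]
    · push Not at h2
      filter_upwards [eventually_nhdsWithin_of_eventually_nhds (gt_mem_nhds h2)] with s hs
      unfold Piece.f
      rw [if_neg (fun hc => absurd hc.1 (not_lt.2 hs.le)),
        if_neg (fun hc => absurd hc.1 (not_le.2 h2))]
  · filter_upwards [self_mem_nhdsWithin] with s hs
    have hs' : h < s := hs
    unfold Piece.f
    rw [if_neg (fun hc => h1 (by linarith [hc.2])), if_neg (fun hc => h1 hc.2)]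

open Classical in
theorem c_main {K : Subfield ℝ} (σ : K →+* ℝ) (φ : ℝ →+ ℝ) {ι : Type} [Fintype ι] (w : ι → ℤ)
    (p : ι → Piece K) (hae : ∀ᵐ s : ℝ, ∑ i, (w i : ℝ) * (p i).f s = 0) :
    ∑ i, (w i : ℝ) * (p i).J σ φ = 0 := by
  have hleft : ∀ h : ℝ, ∑ i, (if (p i).a < h ∧ h ≤ (p i).b then
      (w i : ℝ) * cPsi σ φ (p i) h else 0) = 0 := by
    intro h
    have h1 : ∀ᶠ s in 𝓝[<] h, ∀ i, (p i).f s =
        if (p i).a < h ∧ h ≤ (p i).b then (p i).c + ((p i).k : ℝ) * s else 0 :=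
      eventually_all.2 fun i => c_left (p i) h
    obtain ⟨l, hl, hl2⟩ := mem_nhdsLT_iff_exists_Ioo_subset.1 h1
    exact c_key σ φ w p hae (fun i => (p i).a < h ∧ h ≤ (p i).b) l h hl (fun s hs => hl2 hs) h
  have hright : ∀ h : ℝ, ∑ i, (if (p i).a ≤ h ∧ h < (p i).b then
      (w i : ℝ) * cPsi σ φ (p i) h else 0) = 0 := by
    intro h
    have h1 : ∀ᶠ s in 𝓝[>] h, ∀ i, (p i).f s =
        if (p i).a ≤ h ∧ h < (p i).b then (p i).c + ((p i).k : ℝ) * s else 0 :=
      eventually_all.2 fun i => c_right (p i) h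
    obtain ⟨l, hl, hl2⟩ := mem_nhdsGT_iff_exists_Ioo_subset.1 h1
    exact c_key σ φ w p hae (fun i => (p i).a ≤ h ∧ h < (p i).b) h l hl (fun s hs => hl2 hs) h
  have hdiff : ∀ h : ℝ, ∑ i, ((if h = (p i).b then (w i : ℝ) * cPsi σ φ (p i) h else 0) -
      (if h = (p i).a then (w i : ℝ) * cPsi σ φ (p i) h else 0)) = 0 := by
    intro h
    have h0 := congrArg₂ (fun x y : ℝ => x - y) (hleft h) (hright h)
    simp only [sub_zero] at h0
    refine Eq.trans ?_ h0
    rw [← Finset.sum_sub_distrib]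
    refine Finset.sum_congr rfl fun i _ => ?_
    have hab := (p i).hab
    rcases lt_trichotomy h (p i).a with h1 | h1 | h1
    · rw [if_neg (by linarith), if_neg (by linarith), if_neg (by rintro ⟨h2, h3⟩; linarith),
        if_neg (by rintro ⟨h2, h3⟩; linarith)]
    · rw [if_neg (by linarith), if_pos h1, if_neg (by rintro ⟨h2, h3⟩; linarith),
        if_pos ⟨by linarith, by linarith⟩]
    · rcases lt_trichotomy h (p i).b with h2 | h2 | h2
      · rw [if_neg (by linarith), if_neg (by linarith), if_pos ⟨h1, by linarith⟩,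
          if_pos ⟨by linarith, h2⟩]
        ring
      · rw [if_pos h2, if_neg (by linarith), if_pos ⟨h1, by linarith⟩,
          if_neg (by rintro ⟨h3, h4⟩; linarith)]
      · rw [if_neg (by linarith), if_neg (by linarith), if_neg (by rintro ⟨h3, h4⟩; linarith),
          if_neg (by rintro ⟨h3, h4⟩; linarith)]
  let H : Finset ℝ := (Finset.univ.image fun i => (p i).a) ∪ (Finset.univ.image fun i => (p i).b)
  have hHa : ∀ i, (p i).a ∈ H := fun i => by simp [H]
  have hHb : ∀ i, (p i).b ∈ H := fun i => by simp [H]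
  have hall : ∑ h ∈ H, ∑ i, ((if h = (p i).b then (w i : ℝ) * cPsi σ φ (p i) h else 0) -
      (if h = (p i).a then (w i : ℝ) * cPsi σ φ (p i) h else 0)) = 0 :=
    Finset.sum_eq_zero fun h _ => hdiff h
  rw [Finset.sum_comm] at hall
  rw [← hall]
  refine Finset.sum_congr rfl fun i _ => ?_
  rw [Finset.sum_sub_distrib, Finset.sum_ite_eq_of_mem', Finset.sum_ite_eq_of_mem', cPsi_J]
  · ring
  · exact hHa i
  · exact hHb i

theorem t_C : T_C := by
  intro K σ φ _ W hW
  have h1 := c_main σ φ (fun i : Fin W.length => (W[i.1]).1) (fun i => (W[i.1]).2) (by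
    filter_upwards [hW] with s hs
    rw [← hs, ← Fin.sum_univ_fun_getElem])
  rw [← h1, ← Fin.sum_univ_fun_getElem]

end

end H74R2.WT
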